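import Pool.Agent.H542.NJ.StmJ
import Pool.Agent.H542.NS.P_LOWI

/-!
# LOWJ: the number of sifted elements at different squares (adapted from helper769's P_LOWI)
-/

set_option autoImplicit false

namespace Pool.Agent.H542.NJ.LOWJ

open Polynomial Finset
open scoped Classical
open Pool.Agent.H694.Typ
open Pool.Agent.H985.Par
open Pool.Agent.H996.Par
open Pool.Agent.H542.NS.LOWI (one_shift)

section squares

variable {K : Type} [Field K] [Fintype K]

theorem sq_partJ [CharP K 2] {k : ℕ} (n m : ℕ) (hn : Even n) (D α : Fin k → K[X])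
    (hα : ∀ i, (α i).natDegree < n) :
    (((Sfs K (fun i => D i ^ 2 + α i) n m).filter
      (fun f => ∃ i, ¬ Squarefree (f + (D i ^ 2 + α i)))).card : ℝ) ≤
      2 * k * (Fintype.card K : ℝ) ^ n / (Fintype.card K : ℝ) ^ m +
        k * (Fintype.card K : ℝ) ^ (n / 2) := by
  obtain ⟨h, hh⟩ := hn
  have hn2 : n = 2 * h := by omega
  subst hn2
  have hdiv : 2 * h / 2 = h := by omega
  rw [hdiv]
  have hK2 : (2 : K) = 0 := by exact_mod_cast CharP.cast_eq_zero K 2
  have hsq0 : ∀ P : K[X], derivative (P ^ 2) = 0 := by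
    intro P
    have e : (2 : K[X]) = 0 := by
      have := congrArg (C : K →+* K[X]) hK2
      rwa [map_ofNat, map_zero] at this
    rw [pow_two, derivative_mul, mul_comm P (derivative P), ← two_mul, e, zero_mul]
  have hsub : (Sfs K (fun i => D i ^ 2 + α i) (2 * h) m).filter
      (fun f => ∃ i, ¬ Squarefree (f + (D i ^ 2 + α i))) ⊆
      (univ : Finset (Fin k)).biUnion (fun i => (Mn K (2 * h)).filter
        (fun f => derivative (f + (D i ^ 2 + α i)) = 0 ∨
      ∃ P : K[X], P.Monic ∧ m < P.natDegree ∧ P.natDegree ≤ h ∧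
        P ^ 2 ∣ f + (D i ^ 2 + α i))) := by
    intro f hf
    rw [mem_filter, Sfs, mem_filter] at hf
    obtain ⟨⟨hf1, hf2⟩, i, hi⟩ := hf
    rw [mem_biUnion]
    refine ⟨i, mem_univ _, mem_filter.2 ⟨hf1, ?_⟩⟩
    by_cases hd : derivative (f + (D i ^ 2 + α i)) = 0
    · exact Or.inl hd
    right
    have hm0 : f + (D i ^ 2 + α i) ≠ 0 := by
      intro h0
      apply hd
      rw [h0, derivative_zero]
    rw [squarefree_iff_irreducible_sq_not_dvd_of_ne_zero hm0] at hi
    push Not at hi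
    obtain ⟨P, hP, hPd⟩ := hi
    have hP0 : P ≠ 0 := hP.ne_zero
    have hass : Associated (normalize P) P := normalize_associated P
    have hN : (normalize P).Monic := monic_normalize hP0
    have hNi : Irreducible (normalize P) := hass.irreducible_iff.2 hP
    have hNd : normalize P ^ 2 ∣ f + (D i ^ 2 + α i) := by
      rw [pow_two]
      exact (Associated.mul_mul hass hass).dvd.trans hPd
    refine ⟨normalize P, hN, hf2 i _ hN hNi
      ((Dvd.intro_left _ (pow_two (normalize P)).symm).trans hNd), ?_, hNd⟩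
    -- the degree
    have h1 : normalize P ^ 2 ∣ derivative (f + (D i ^ 2 + α i)) := by
      obtain ⟨G, hG⟩ := hNd
      rw [hG, derivative_mul, hsq0, zero_mul, zero_add]
      exact dvd_mul_right _ _
    have h2 := natDegree_le_of_dvd h1 hd
    rw [natDegree_pow] at h2
    have h3 : (derivative (f + (D i ^ 2 + α i))).natDegree < 2 * h := by
      rw [derivative_add, derivative_add, hsq0, zero_add, ← derivative_add]
      have hn1 : 0 < 2 * h := lt_of_le_of_lt (Nat.zero_le _) (hα i)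
      have h4 : (f + α i).natDegree = 2 * h := (mem_Mn.1 (add_mem_Mn hf1 (hα i))).2
      have h5 := natDegree_derivative_lt (p := f + α i) (by omega)
      omega
    omega
  have h1 : (((Sfs K (fun i => D i ^ 2 + α i) (2 * h) m).filter
      (fun f => ∃ i, ¬ Squarefree (f + (D i ^ 2 + α i)))).card : ℝ) ≤
      ∑ i : Fin k, (((Mn K (2 * h)).filter
        (fun f => derivative (f + (D i ^ 2 + α i)) = 0 ∨
      ∃ P : K[X], P.Monic ∧ m < P.natDegree ∧ P.natDegree ≤ h ∧
        P ^ 2 ∣ f + (D i ^ 2 + α i))).card : ℝ) := by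
    have := (card_le_card hsub).trans card_biUnion_le
    exact_mod_cast this
  refine h1.trans ?_
  have h2 : ∑ i : Fin k, (((Mn K (2 * h)).filter
        (fun f => derivative (f + (D i ^ 2 + α i)) = 0 ∨
      ∃ P : K[X], P.Monic ∧ m < P.natDegree ∧ P.natDegree ≤ h ∧
        P ^ 2 ∣ f + (D i ^ 2 + α i))).card : ℝ) ≤
      ∑ _i : Fin k, ((Fintype.card K : ℝ) ^ h + (Fintype.card K : ℝ) ^ (2 * h) * wt K m) :=
    sum_le_sum fun i _ => one_shift h m _
  refine h2.trans ?_
  rw [sum_const, card_univ, Fintype.card_fin, nsmul_eq_mul]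
  have h3 : (0 : ℝ) ≤ k := Nat.cast_nonneg k
  have h4 : (0 : ℝ) ≤ (Fintype.card K : ℝ) ^ (2 * h) * wt K m := by
    have := wt_nonneg (k := K) m
    positivity
  have h5 : 2 * k * (Fintype.card K : ℝ) ^ (2 * h) / (Fintype.card K : ℝ) ^ m =
      2 * (k * ((Fintype.card K : ℝ) ^ (2 * h) * wt K m)) := by
    unfold wt
    rw [div_eq_mul_inv]
    ring
  rw [h5, mul_add]
  have := mul_nonneg h3 h4
  linarith

end squares

theorem lowJ : T_lowJ := by
  intro hs K _ _ _ k
  obtain ⟨A, hA⟩ := hs K k (1 / 2) (by norm_num)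
  obtain ⟨c₀, hc₀⟩ : ∃ c₀ : ℝ, c₀ = Real.exp (-((k : ℝ) + (8 * (k : ℝ) ^ 3 +
    2 * (k : ℝ) ^ 2))) := ⟨_, rfl⟩
  have hc0 : 0 < c₀ := by rw [hc₀]; exact Real.exp_pos _
  have hq := q_ge (k := K)
  refine ⟨c₀ / 2, by positivity, A, ?_⟩
  intro n m hm hn hev D α hdeg hadm
  refine ⟨?_, sq_partJ n m hev D α hdeg⟩
  obtain ⟨γ, hγ⟩ : ∃ γ : Fin k → K[X], γ = fun i => D i ^ 2 + α i := ⟨_, rfl⟩
  have hadm' : ∀ P : K[X], P.Monic → Irreducible P → ∃ r : K[X], ∀ i, ¬ P ∣ r + γ i := by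
    rw [hγ]; exact hadm
  rw [← hγ]
  have h1 := (hA n m (PU K m) (Om γ) 1 (X ^ n) hm hn (fun P hP => by
      rw [mem_PU] at hP
      exact ⟨hP.1, hP.2.1, hP.2.2, isCoprime_one_left⟩) (fun P hP => by
      rw [mem_PU] at hP
      exact ⟨Om_card γ P, Om_lt γ hP.1 (hadm' P hP.1 hP.2.1), Om_deg γ hP.1⟩)).1
  rw [← Sfs_card] at h1
  refine le_trans ?_ h1
  have h2 := prod_ge (K := K) k m hm (fun P => (Om γ P).card) (fun P hP => by
      rw [mem_PU] at hP
      exact ⟨Om_card γ P, Om_lt γ hP.1 (hadm' P hP.1 hP.2.1)⟩)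
  rw [← hc₀] at h2
  have h3 : (0 : ℝ) < (Fintype.card K : ℝ) ^ n := by positivity
  calc c₀ / 2 * (Fintype.card K : ℝ) ^ n / (m : ℝ) ^ k
      = (1 - 1 / 2) * (c₀ / (m : ℝ) ^ k) * (Fintype.card K : ℝ) ^ n := by ring
    _ ≤ _ := by
      apply mul_le_mul_of_nonneg_right _ h3.le
      exact mul_le_mul_of_nonneg_left h2 (by norm_num)

end Pool.Agent.H542.NJ.LOWJ
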