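import Mathlib
import Pool.Agent.H542.NS.Stm

/-!
# Tuples at different squares over `F_q[X]`, `q` even (helper542): statements of the parts

As `Pool.Agent.H542.NS.Stm`, but the `i`-th factor lies in the interval around its own square.
-/

set_option autoImplicit false

namespace Pool.Agent.H542.NJ

open Polynomial
open scoped Classical
open Pool.Agent.H985.Chow (mob MD)
open Pool.Agent.H985.KP (PA mobg S_typ2)
open Pool.Agent.H985.FC (GP)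
open Pool.Agent.H985.Par (mass Fb Sfs S_sw S_typV)
open Pool.Agent.H604.FC (S_win4)
open Pool.Agent.H694.Typ (Mn)
open Pool.Agent.H542.NS (Cn S_winG)

/-- **Task WIN5J.**  The window bound, `a + s i` monic of degree `d i`. -/
def S_win5J : Prop :=
  ∀ k r : ℕ, ∃ M : ℝ, 1 ≤ M ∧
  ∀ (K : Type) [Field K] [Fintype K] [CharP K 2] (d : Fin k → ℕ) (L D T : ℕ) (c : Fin r → K)
    (a E : K[X]) (e h' h'' : Fin r → K[X]) (s g : Fin k → K[X]) (cl : Fin k → Fin r) (j₀ : Fin r)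
    (χ : AddChar K[X] ℝ),
    (∀ j, c j ≠ 0) → E ≠ 0 → 1 ≤ L →
    (∀ j, (e j).Monic ∧ (h' j).Monic ∧ (h'' j).Monic ∧ IsCoprime (e j) (h' j * h'' j) ∧
      Squarefree (h' j * h'' j) ∧ IsCoprime E (h' j * h'' j) ∧ e j ^ 5 ∣ E ∧
      (h' j).natDegree + D ≤ L ∧ (h'' j).natDegree + D ≤ L ∧
      (∀ i, (e j * (h' j * h'' j)).natDegree < d i) ∧
      E.natDegree + (L - 1) ≤ (e j * (h' j * h'' j)).natDegree) →
    (∀ i j, i ≠ j → IsCoprime (h' i * h'' i) (h' j * h'' j)) → (∃ i, cl i = j₀) →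
    (∀ i, (g i).Monic ∧ g i ∣ e (cl i)) →
    (∀ i j, i ≠ j → cl i = cl j → IsCoprime (s i - s j) (h'' (cl i))) →
    (∀ i, (a + s i).Monic ∧ (a + s i).natDegree = d i) →
    L ≤ 2 * (h'' j₀).natDegree → (6 * r + 3) * T ≤ D →
    |∑ᶠ u ∈ {u : K[X] | u.degree < (L : WithBot ℕ)}, χ u * ∏ i,
        (mobg (g i) ((a + s i + E * u) ^ 2 +
          X * (C (c (cl i)) * (e (cl i) * (h' (cl i) * h'' (cl i)))) ^ 2) : ℝ)| ^
            (2 ^ (6 * r + 1)) ≤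
      M ^ (∑ j, (PA (h' j * h'' j)).ncard) * (Fintype.card K : ℝ) ^ (L * 2 ^ (6 * r + 1)) /
        (Fintype.card K : ℝ) ^ T

def T_win5J : Prop := S_winG → S_win4 → S_win5J

/-- **Task FIBJ.**  The typical fibre. -/
def S_fibJ : Prop :=
  ∀ (K : Type) [Field K] [Fintype K] [CharP K 2] (k : ℕ) (ε : ℝ), 1 ≤ k → 0 < ε →
    ∃ κ θ c : ℝ, 0 < κ ∧ κ ≤ 1 / 8 ∧ 0 < θ ∧ 0 < c ∧ ∃ n₀ : ℕ, ∀ n : ℕ, n₀ ≤ n →
    ∀ (s t : Fin k → K[X]) (R : Set K[X]) (D : Fin k → K[X]), (∀ i, Cn n (D i)) →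
      (∀ i, ((D i).natDegree : ℝ) ≤ (Fintype.card K : ℝ) ^ (θ * n)) →
      Function.Injective (fun i => (D i + s i, t i)) →
      (∀ i, (s i ^ 2 + X * t i ^ 2).natDegree < n) → mass R n ≤ θ * n →
      ∃ Exc : Set K[X], Exc ⊆ Fb K n ∧
        (Exc.ncard : ℝ) ≤ ε * (Fintype.card K : ℝ) ^ (n / 2) ∧
        ∀ b ∈ Fb K n, b ∉ Exc → ∃ E : K[X], E.Monic ∧ (E.natDegree : ℝ) ≤ κ * n ∧
          (∀ P ∈ R, P.Monic → Irreducible P → (∃ i, P ∣ b + t i) → P ∣ E) ∧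
          ∀ (M : K[X]) (g : Fin k → K[X]) (L : ℕ) (a : K[X]) (χ : AddChar K[X] ℝ),
            M ≠ 0 → E ∣ M → (M.natDegree : ℝ) ≤ 4 * κ * n →
            (∀ P : K[X], P.Monic → Irreducible P → P ∣ M → P ∣ E ∨ ∀ i, ¬ P ∣ b + t i) →
            (∀ i, (g i).Monic ∧ ∀ P : K[X], P.Monic → Irreducible P → P ∣ g i → P ∈ R) →
            (a ^ 2 + X * b ^ 2).Monic → (a ^ 2 + X * b ^ 2).natDegree = n →
            (1 - 3 * κ) * n ≤ 2 * ((M.natDegree : ℝ) + L) →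
            2 * ((M.natDegree : ℝ) + L) ≤ (1 - κ) * n →
            |∑ᶠ u ∈ {u : K[X] | u.degree < (L : WithBot ℕ)}, χ u * ∏ i,
              (mobg (g i) ((a + (D i + s i) + M * u) ^ 2 + X * (b + t i) ^ 2) : ℝ)| ≤
                (Fintype.card K : ℝ) ^ ((L : ℝ) - c * n)

def T_fibJ : Prop := S_win5J → S_typV → S_fibJ

/-- **Task PARJ.**  Parity in sifted sets at different squares. -/
def S_parJ : Prop :=
  ∀ (K : Type) [Field K] [Fintype K] [CharP K 2] (k : ℕ) (ε : ℝ), 0 < ε →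
    ∃ κ θ : ℝ, 0 < κ ∧ 0 < θ ∧ ∃ m₀ n₀ : ℕ, ∀ n : ℕ, n₀ ≤ n → ∀ m : ℕ, m₀ ≤ m → (m : ℝ) ≤ κ * n →
      ∀ D : Fin k → K[X], (∀ i, Cn n (D i)) →
      (∀ i, ((D i).natDegree : ℝ) ≤ (Fintype.card K : ℝ) ^ (θ * n)) →
      ∀ α : Fin k → K[X], Function.Injective (fun i => D i ^ 2 + α i) →
      (∀ i, (α i).natDegree < n) → ∀ S : Finset (Fin k), S.Nonempty →
        |∑ f ∈ Sfs K (fun i => D i ^ 2 + α i) n m, ∏ i ∈ S, (mob (f + (D i ^ 2 + α i)) : ℝ)| ≤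
          ε * (Sfs K (fun i => D i ^ 2 + α i) n m).card

/-- **Task LOWJ.**  The number of sifted elements, and of those with a square factor. -/
def S_lowJ : Prop :=
  ∀ (K : Type) [Field K] [Fintype K] [CharP K 2] (k : ℕ), ∃ c : ℝ, 0 < c ∧ ∃ A : ℕ,
    ∀ n m : ℕ, 1 ≤ m → A * m ≤ n → Even n → ∀ D α : Fin k → K[X],
      (∀ i, (α i).natDegree < n) →
      (∀ P : K[X], P.Monic → Irreducible P → ∃ r : K[X], ∀ i, ¬ P ∣ r + (D i ^ 2 + α i)) →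
        c * (Fintype.card K : ℝ) ^ n / (m : ℝ) ^ k ≤ (Sfs K (fun i => D i ^ 2 + α i) n m).card ∧
        (((Sfs K (fun i => D i ^ 2 + α i) n m).filter
          (fun f => ∃ i, ¬ Squarefree (f + (D i ^ 2 + α i)))).card : ℝ) ≤
          2 * k * (Fintype.card K : ℝ) ^ n / (Fintype.card K : ℝ) ^ m +
            k * (Fintype.card K : ℝ) ^ (n / 2)

def T_lowJ : Prop := S_sw → S_lowJ

def T_parJ : Prop := S_fibJ → S_sw → S_lowJ → S_parJ

end Pool.Agent.H542.NJ
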