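import Mathlib
import Pool.Agent.H542.NJ.StmJ
import Pool.Agent.H542.NS.P_WIN5I
import Pool.Agent.H524.FC.Win5

/-!
# Task WIN5J: the window bound around squares
-/

set_option autoImplicit false

open scoped Classical
open Polynomial


namespace Pool.Agent.H542.NJ

open Pool.Agent.H985.KP (sg PA mobg)
open Pool.Agent.H985.FC (gl GP)
open Pool.Agent.H604.FC (S_win4)
open Pool.Agent.H524.FC (not_dvd_der)

/-- **Task WIN5J.** -/
theorem win5J : T_win5J := by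
  intro hwinG h4 k r
  obtain ⟨M, hM, h⟩ := h4 k r
  refine ⟨M, hM, ?_⟩
  intro K _ _ _ d L D T c a E e h' h'' s g cl j₀ χ hc hE hL hj hcop hj₀ hg hs hn hL2 hT
  have hWin : ∀ i : Fin k, ∃ (η : ℝ) (ψ : AddChar K[X] ℝ), |η| ≤ 1 ∧
      ∀ u : K[X], u.degree < (L : WithBot ℕ) →
      (mobg (g i) ((a + s i + E * u) ^ 2 +
        X * (C (c (cl i)) * (e (cl i) * (h' (cl i) * h'' (cl i)))) ^ 2) : ℝ) =
        η * (ψ u * ∏ᶠ P ∈ PA (h' (cl i) * h'' (cl i)),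
          GP (C (c (cl i)) * (e (cl i) * (h' (cl i) * h'' (cl i)))) (g i) P (a + s i + E * u)) := by
    intro i
    obtain ⟨h1, h2, h3, h4, h5, h6, h7, -, -, h8, h9⟩ := hj (cl i)
    obtain ⟨η, ψ, g1, -, g3⟩ := hwinG K (d i) L (c (cl i)) (a + s i) (e (cl i))
      (h' (cl i) * h'' (cl i)) E (g i) (hc _) h1 (h2.mul h3) h4
      h5 (hg i).1 (hg i).2 hE h7 h6 hL (hn i).1 (hn i).2 (h8 i) h9
    exact ⟨η, ψ, g1, g3⟩
  choose η ψ hη hW using hWin
  obtain ⟨ρ, hρ⟩ := Pool.Agent.H542.NS.WIN5I.prod_char Finset.univ χ ψ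
  have hsum : ∑ᶠ u ∈ {u : K[X] | u.degree < (L : WithBot ℕ)}, χ u * ∏ i,
        (mobg (g i) ((a + s i + E * u) ^ 2 +
          X * (C (c (cl i)) * (e (cl i) * (h' (cl i) * h'' (cl i)))) ^ 2) : ℝ) =
      (∏ i, η i) * ∑ᶠ u ∈ {u : K[X] | u.degree < (L : WithBot ℕ)}, ρ u * ∏ i,
        ∏ᶠ P ∈ PA (h' (cl i) * h'' (cl i)),
          GP (C (c (cl i)) * (e (cl i) * (h' (cl i) * h'' (cl i)))) (g i) P (a + s i + E * u) := by
    rw [mul_finsum_mem]
    refine finsum_mem_congr rfl fun u hu => ?_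
    have h1 : ∏ i, (mobg (g i) ((a + s i + E * u) ^ 2 +
          X * (C (c (cl i)) * (e (cl i) * (h' (cl i) * h'' (cl i)))) ^ 2) : ℝ) =
        ∏ i, (η i * (ψ i u * ∏ᶠ P ∈ PA (h' (cl i) * h'' (cl i)),
          GP (C (c (cl i)) * (e (cl i) * (h' (cl i) * h'' (cl i)))) (g i) P (a + s i + E * u))) :=
      Finset.prod_congr rfl fun i _ => hW i u hu
    rw [h1, Finset.prod_mul_distrib, Finset.prod_mul_distrib, hρ]
    ring
  have hη1 : |∏ i, η i| ≤ 1 := by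
    rw [Finset.abs_prod]
    exact Finset.prod_le_one (fun _ _ => abs_nonneg _) fun i _ => hη i
  rw [hsum, abs_mul]
  have hmain := h K L D T E (fun j => C (c j) * (e j * (h' j * h'' j))) h' h'' (fun i => a + s i) g cl
    j₀ ρ (fun j => ?_) hcop hj₀ (fun i j hij hcl => ?_) hL2 hT
  · refine le_trans ?_ hmain
    gcongr
    exact mul_le_of_le_one_left (abs_nonneg _) hη1
  · obtain ⟨h1, h2, h3, h4, h5, h6, h7, h8, h9, -, -⟩ := hj j
    exact ⟨h2, h3, h5, h6, h8, h9, fun P hP => not_dvd_der (hc j) h4 h5 hP.2.1 hP.2.2⟩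
  · rw [add_sub_add_left_eq_sub]
    exact hs i j hij hcl

end Pool.Agent.H542.NJ
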