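import Mathlib
import Pool.Agent.H542.NS.Cnt
import Pool.Agent.H542.NS.Final
import Pool.Agent.H542.NJ.P_WIN5J
import Pool.Agent.H542.NJ.P_FIBJ
import Pool.Agent.H542.NJ.P_LOWJ
import Pool.Agent.H542.NJ.P_PARJ

/-!
# Tuples at different squares over `F_q[X]`, `q` even (helper542): all parts together
-/

set_option autoImplicit false

namespace Pool.Agent.H542.NJ

open Polynomial Filter Topology
open scoped Classical
open Pool.Agent.H985.Chow (mob MD)
open Pool.Agent.H985.Par (Sfs Sft S_sw patt_aux Sfs_empty)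
open Pool.Agent.H542.NS (Cn VV)
open Pool.Agent.H694.Typ (Mn mem_Mn)
open Pool.Agent.H985.Chow.Asm (card_deg instFD)

/-- **Equidistribution of the sign patterns** in the sifted sets around squares. -/
theorem pattJ (hpar : S_parJ) (hlow : S_lowJ) (K : Type) [Field K] [Fintype K] [CharP K 2] (k : ℕ)
    (ε : ℝ) (hε : 0 < ε) :
    ∃ κ θ : ℝ, 0 < κ ∧ 0 < θ ∧ ∃ m₀ n₀ : ℕ, ∀ n : ℕ, n₀ ≤ n → ∀ m : ℕ, m₀ ≤ m →
      (m : ℝ) ≤ κ * n → Even n → ∀ D : Fin k → K[X], (∀ i, Cn n (D i)) →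
      (∀ i, ((D i).natDegree : ℝ) ≤ (Fintype.card K : ℝ) ^ (θ * n)) →
      ∀ α : Fin k → K[X], Function.Injective (fun i => D i ^ 2 + α i) →
      (∀ i, (α i).natDegree < n) → ∀ σ : Fin k → ℤ, (∀ i, σ i = 1 ∨ σ i = -1) →
        |(((Sfs K (fun i => D i ^ 2 + α i) n m).filter
            (fun f => ∀ i, mob (f + (D i ^ 2 + α i)) = σ i)).card : ℝ) -
          (Sfs K (fun i => D i ^ 2 + α i) n m).card / 2 ^ k| ≤
            ε * (Sfs K (fun i => D i ^ 2 + α i) n m).card := by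
  obtain ⟨κ, θ, hκ, hθ, m₀, n₀, hpar⟩ := hpar K k (ε / 2) (by positivity)
  obtain ⟨c, hc, A, hlow⟩ := hlow K k
  have hq : (2 : ℝ) ≤ (Fintype.card K : ℝ) := by exact_mod_cast Fintype.one_lt_card
  have hlim : Tendsto (fun m : ℕ => 2 * k * ((m : ℝ) ^ k / (2 : ℝ) ^ m)) atTop (𝓝 0) := by
    have h1 := tendsto_pow_const_div_const_pow_of_one_lt k (show (1 : ℝ) < 2 by norm_num)
    simpa using h1.const_mul (2 * (k : ℝ))
  obtain ⟨m₁, hm₁⟩ := (Metric.tendsto_atTop.1 hlim (c * (ε / 4)) (by positivity))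
  -- `k n ^ k / q ^ (n / 2)` is small
  have hlim2 : Tendsto (fun j : ℕ => k * ((2 : ℝ) ^ k * (((j : ℝ) + 1) ^ k / (2 : ℝ) ^ j))) atTop
      (𝓝 0) := by
    have h1 := tendsto_pow_const_div_const_pow_of_one_lt k (show (1 : ℝ) < 2 by norm_num)
    have h2 := ((tendsto_add_atTop_iff_nat 1).2 h1).const_mul (2 * ((k : ℝ) * (2 : ℝ) ^ k))
    simp only [mul_zero] at h2
    refine h2.congr fun j => ?_
    push_cast
    rw [pow_succ]
    field_simp
  obtain ⟨j₁, hj₁⟩ := (Metric.tendsto_atTop.1 hlim2 (c * (ε / 4)) (by positivity))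
  refine ⟨min κ (1 / (A + 1)), θ, lt_min hκ (by positivity), hθ, max (max m₀ m₁) (k + 1),
    n₀ + 2 * j₁ + 2, fun n hn m hm hmκ hev D hD hDd α hα hdeg σ hσ => ?_⟩
  have hm0 : m₀ ≤ m := le_trans (le_max_left _ _) (le_trans (le_max_left _ _) hm)
  have hm1 : m₁ ≤ m := le_trans (le_max_right _ _) (le_trans (le_max_left _ _) hm)
  have hmk : k + 1 ≤ m := le_trans (le_max_right _ _) hm
  by_cases hadm : ∀ P : K[X], P.Monic → Irreducible P → ∃ r : K[X], ∀ i, ¬ P ∣ r + (D i ^ 2 + α i)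
  · have h1 := patt_aux (fun i => D i ^ 2 + α i) n m σ hσ (ε / 2) (by positivity)
      (hpar n (by omega) m hm0
        (hmκ.trans (mul_le_mul_of_nonneg_right (min_le_left _ _) (by positivity))) D hD hDd α hα hdeg)
    have hAm' : ((A : ℝ) + 1) * m ≤ n := by
      have h2 : (m : ℝ) ≤ 1 / (A + 1) * n :=
        hmκ.trans (mul_le_mul_of_nonneg_right (min_le_right _ _) (by positivity))
      calc ((A : ℝ) + 1) * m ≤ (A + 1) * (1 / (A + 1) * n) :=
            mul_le_mul_of_nonneg_left h2 (by positivity)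
        _ = n := by field_simp
    have hAm : A * m ≤ n := by
      have h4 : (A + 1) * m ≤ n := by exact_mod_cast hAm'
      nlinarith
    have hmn : (m : ℝ) ≤ n := by
      have h5 : (0 : ℝ) ≤ (A : ℝ) * m := by positivity
      linarith
    obtain ⟨l1, l2⟩ := hlow n m (by omega) hAm hev D α hdeg hadm
    have hmpos : (0 : ℝ) < (m : ℝ) := by
      have : 0 < m := by omega
      exact_mod_cast this
    have h5 : (((Sfs K (fun i => D i ^ 2 + α i) n m).filter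
        (fun f => ∃ i, ¬ Squarefree (f + (D i ^ 2 + α i)))).card : ℝ) ≤
        ε / 2 * (Sfs K (fun i => D i ^ 2 + α i) n m).card := by
      refine l2.trans ?_
      have h6 := hm₁ m hm1
      rw [Real.dist_eq, sub_zero] at h6
      have h7 := (le_abs_self _).trans h6.le
      have h8 : (2 : ℝ) ^ m ≤ (Fintype.card K : ℝ) ^ m := pow_le_pow_left₀ (by norm_num) hq m
      have h9 : 2 * (k : ℝ) * (Fintype.card K : ℝ) ^ n / (Fintype.card K : ℝ) ^ m ≤
          ε / 4 * (c * (Fintype.card K : ℝ) ^ n / (m : ℝ) ^ k) := by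
        have h10 : 2 * (k : ℝ) / (Fintype.card K : ℝ) ^ m ≤ c * (ε / 4) / (m : ℝ) ^ k := by
          rw [div_le_div_iff₀ (by positivity) (by positivity)]
          have h11 : 2 * (k : ℝ) * (m : ℝ) ^ k ≤ c * (ε / 4) * 2 ^ m := by
            have h12 : 2 * (k : ℝ) * ((m : ℝ) ^ k / 2 ^ m) * 2 ^ m ≤ c * (ε / 4) * 2 ^ m :=
              mul_le_mul_of_nonneg_right h7 (by positivity)
            refine le_trans (le_of_eq ?_) h12
            field_simp
          exact h11.trans (mul_le_mul_of_nonneg_left h8 (by positivity))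
        calc 2 * (k : ℝ) * (Fintype.card K : ℝ) ^ n / (Fintype.card K : ℝ) ^ m
            = 2 * (k : ℝ) / (Fintype.card K : ℝ) ^ m * (Fintype.card K : ℝ) ^ n := by ring
          _ ≤ c * (ε / 4) / (m : ℝ) ^ k * (Fintype.card K : ℝ) ^ n :=
              mul_le_mul_of_nonneg_right h10 (by positivity)
          _ = _ := by ring
      have h13 : (k : ℝ) * (Fintype.card K : ℝ) ^ (n / 2) ≤
          ε / 4 * (c * (Fintype.card K : ℝ) ^ n / (m : ℝ) ^ k) := by
        obtain ⟨j, hj⟩ : ∃ j, j = n / 2 := ⟨_, rfl⟩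
        have hnj : n = j + j := by
          obtain ⟨m', hm'⟩ := hev
          omega
        have h14 := hj₁ j (by omega)
        rw [Real.dist_eq, sub_zero] at h14
        have h15 := (le_abs_self _).trans h14.le
        have h16 : (m : ℝ) ^ k ≤ (2 : ℝ) ^ k * ((j : ℝ) + 1) ^ k := by
          rw [← mul_pow]
          apply pow_le_pow_left₀ hmpos.le
          refine hmn.trans ?_
          rw [hnj]
          push_cast
          linarith
        have h17 : (2 : ℝ) ^ j ≤ (Fintype.card K : ℝ) ^ j := pow_le_pow_left₀ (by norm_num) hq j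
        have h18 : (k : ℝ) * ((2 : ℝ) ^ k * ((j : ℝ) + 1) ^ k) ≤ c * (ε / 4) * 2 ^ j := by
          have h19 : k * ((2 : ℝ) ^ k * (((j : ℝ) + 1) ^ k / (2 : ℝ) ^ j)) * 2 ^ j ≤
              c * (ε / 4) * 2 ^ j := mul_le_mul_of_nonneg_right h15 (by positivity)
          refine le_trans (le_of_eq ?_) h19
          field_simp
        have h20 : (k : ℝ) * (m : ℝ) ^ k ≤ c * (ε / 4) * (Fintype.card K : ℝ) ^ j := by
          refine (mul_le_mul_of_nonneg_left h16 (Nat.cast_nonneg k)).trans (h18.trans ?_)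
          exact mul_le_mul_of_nonneg_left h17 (by positivity)
        rw [← hj]
        have h21 : (Fintype.card K : ℝ) ^ n = (Fintype.card K : ℝ) ^ j * (Fintype.card K : ℝ) ^ j := by
          rw [hnj, pow_add]
        rw [h21, mul_div_assoc', le_div_iff₀ (by positivity)]
        have h22 : (0 : ℝ) ≤ (Fintype.card K : ℝ) ^ j := by positivity
        calc (k : ℝ) * (Fintype.card K : ℝ) ^ j * (m : ℝ) ^ k =
            ((k : ℝ) * (m : ℝ) ^ k) * (Fintype.card K : ℝ) ^ j := by ring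
          _ ≤ (c * (ε / 4) * (Fintype.card K : ℝ) ^ j) * (Fintype.card K : ℝ) ^ j :=
              mul_le_mul_of_nonneg_right h20 h22
          _ = _ := by ring
      have h23 : ε / 4 * (c * (Fintype.card K : ℝ) ^ n / (m : ℝ) ^ k) ≤
          ε / 4 * (Sfs K (fun i => D i ^ 2 + α i) n m).card :=
        mul_le_mul_of_nonneg_left l1 (by positivity)
      linarith
    linarith
  · push Not at hadm
    obtain ⟨P, hP, hPi, hobs⟩ := hadm
    rw [Sfs_empty (fun i => D i ^ 2 + α i) hP hPi hobs (by omega)]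
    simp

open Pool.Agent.H694.Typ (PU mem_PU) in
open Pool.Agent.H996.Par (Om Om_card Om_lt Om_deg dvd_rem Sfs_card) in
/-- **Asymptotic number of the parity patterns.** -/
theorem cntJ (hsw : S_sw) (hpar : S_parJ) (hlow : S_lowJ) (K : Type) [Field K] [Fintype K]
    [CharP K 2] (k : ℕ) : ∃ c : ℝ, 0 < c ∧ ∀ ε : ℝ, 0 < ε →
    ∃ κ θ : ℝ, 0 < κ ∧ 0 < θ ∧ ∃ M H : ℕ, ∀ n m : ℕ, H ≤ n → M ≤ m → (m : ℝ) ≤ κ * n → Even n →
      ∀ D : Fin k → K[X], (∀ i, Cn n (D i)) →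
      (∀ i, ((D i).natDegree : ℝ) ≤ (Fintype.card K : ℝ) ^ (θ * n)) →
      ∀ α : Fin k → K[X], Function.Injective (fun i => D i ^ 2 + α i) →
      (∀ i, (α i).natDegree < n) →
      (∀ P : K[X], P.Monic → Irreducible P → ∃ x : K[X], ∀ i, ¬ P ∣ x + (D i ^ 2 + α i)) →
      ∀ σ : Fin k → ℤ, (∀ i, σ i = 1 ∨ σ i = -1) →
        c / (m : ℝ) ^ k ≤ VV (fun i => D i ^ 2 + α i) m ∧
        |((((Sfs K (fun i => D i ^ 2 + α i) n m).filter
            (fun f => ∀ i, mob (f + (D i ^ 2 + α i)) = σ i)).card : ℕ) : ℝ) -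
          VV (fun i => D i ^ 2 + α i) m * (Fintype.card K : ℝ) ^ n / 2 ^ k| ≤
            ε * (VV (fun i => D i ^ 2 + α i) m * (Fintype.card K : ℝ) ^ n) := by
  refine ⟨Real.exp (-((k : ℝ) + (8 * (k : ℝ) ^ 3 + 2 * (k : ℝ) ^ 2))), Real.exp_pos _, ?_⟩
  intro ε hε
  obtain ⟨δ, hδ⟩ : ∃ δ : ℝ, δ = min ε 1 / 3 := ⟨_, rfl⟩
  have hm0 : 0 < min ε 1 := lt_min hε one_pos
  have hδ0 : 0 < δ := by rw [hδ]; linarith
  have hδ1 : δ ≤ 1 / 3 := by
    rw [hδ]
    have : min ε 1 ≤ 1 := min_le_right _ _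
    linarith
  have hδε : 3 * δ ≤ ε := by
    rw [hδ]
    have : min ε 1 ≤ ε := min_le_left _ _
    linarith
  obtain ⟨κ, θ, hκ, hθ, M, H, hp⟩ := pattJ hpar hlow K k δ hδ0
  obtain ⟨A₀, hA₀⟩ := hsw K k δ hδ0
  refine ⟨min κ (1 / (A₀ + 1)), θ, lt_min hκ (by positivity), hθ, M + 1, H, ?_⟩
  intro n m hn hm hmκ hev D hD hDd α hα hdeg hadm σ hσ
  have hn0 : (0 : ℝ) ≤ n := Nat.cast_nonneg _
  have h1 := hp n hn m (by omega)
    (hmκ.trans (mul_le_mul_of_nonneg_right (min_le_left _ _) hn0)) hev D hD hDd α hα hdeg σ hσ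
  obtain ⟨β, hβ⟩ : ∃ β : Fin k → K[X], β = fun i => D i ^ 2 + α i := ⟨_, rfl⟩
  have hadm' : ∀ P : K[X], P.Monic → Irreducible P → ∃ x : K[X], ∀ i, ¬ P ∣ x + β i := by
    rw [hβ]; exact hadm
  rw [← hβ] at h1 ⊢
  have hAm : A₀ * m ≤ n := by
    have h2 : (m : ℝ) ≤ 1 / (A₀ + 1) * n :=
      hmκ.trans (mul_le_mul_of_nonneg_right (min_le_right _ _) hn0)
    have h3 : ((A₀ : ℝ) + 1) * m ≤ n := by
      calc ((A₀ : ℝ) + 1) * m ≤ (A₀ + 1) * (1 / (A₀ + 1) * n) :=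
            mul_le_mul_of_nonneg_left h2 (by positivity)
        _ = n := by field_simp
    have h4 : (A₀ + 1) * m ≤ n := by exact_mod_cast h3
    nlinarith
  have h2 := hA₀ n m (PU K m) (Om β) 1 (X ^ n) (by omega) hAm (fun P hP => by
      rw [mem_PU] at hP
      exact ⟨hP.1, hP.2.1, hP.2.2, isCoprime_one_left⟩) (fun P hP => by
      rw [mem_PU] at hP
      exact ⟨Om_card β P, Om_lt β hP.1 (hadm' P hP.1 hP.2.1), Om_deg β hP.1⟩)
  obtain ⟨h3, h4, -⟩ := h2
  rw [← Sfs_card] at h3 h4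
  have hV : 0 < VV β m := by
    unfold VV
    apply Finset.prod_pos
    intro P hP
    rw [mem_PU] at hP
    have h5 := Om_lt β hP.1 (hadm' P hP.1 hP.2.1)
    have h6 : (0 : ℝ) < (Fintype.card K : ℝ) ^ P.natDegree :=
      pow_pos (by exact_mod_cast Fintype.card_pos) _
    rw [sub_pos, div_lt_one h6]
    exact_mod_cast h5
  refine ⟨Pool.Agent.H996.Par.prod_ge (K := K) k m (by omega) (fun P => (Om β P).card)
    (fun P hP => by
      rw [mem_PU] at hP
      exact ⟨Om_card β P, Om_lt β hP.1 (hadm' P hP.1 hP.2.1)⟩), ?_⟩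
  obtain ⟨W, hW⟩ : ∃ W : ℝ, W = VV β m * (Fintype.card K : ℝ) ^ n := ⟨_, rfl⟩
  have hW0 : 0 < W := by
    rw [hW]
    exact mul_pos hV (pow_pos (by exact_mod_cast Fintype.card_pos) _)
  have h3' : (1 - δ) * W ≤ ((Sfs K β n m).card : ℝ) := by
    rw [hW, ← mul_assoc]
    exact h3
  have h4' : ((Sfs K β n m).card : ℝ) ≤ (1 + δ) * W := by
    rw [hW, ← mul_assoc]
    exact h4
  rw [← hW]
  obtain ⟨N, hN⟩ : ∃ N : ℝ, N = ((Sfs K β n m).card : ℝ) := ⟨_, rfl⟩
  obtain ⟨Q, hQ⟩ : ∃ Q : ℝ, Q = ((((Sfs K β n m).filter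
      (fun f => ∀ i, mob (f + (D i ^ 2 + α i)) = σ i)).card : ℕ) : ℝ) :=
    ⟨_, rfl⟩
  rw [← hN] at h1 h3' h4'
  rw [← hQ] at h1 ⊢
  have hN0 : 0 ≤ N := by rw [hN]; exact Nat.cast_nonneg _
  have h5 : |N / 2 ^ k - W / 2 ^ k| ≤ δ * W := by
    rw [← sub_div, abs_div, abs_of_pos (show (0 : ℝ) < 2 ^ k by positivity),
      div_le_iff₀ (by positivity)]
    have h6 : |N - W| ≤ δ * W := by
      rw [abs_le]
      constructor <;> linarith
    refine h6.trans ?_
    have h7 : (1 : ℝ) ≤ 2 ^ k := one_le_pow₀ (by norm_num)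
    have h8 : 0 ≤ δ * W := by positivity
    nlinarith
  have h6 := abs_sub_le Q (N / 2 ^ k) (W / 2 ^ k)
  have h7 : δ * N ≤ δ * ((1 + δ) * W) := mul_le_mul_of_nonneg_left h4' hδ0.le
  have h8 : δ * ((1 + δ) * W) ≤ 2 * δ * W := by
    have h9 : 0 ≤ δ * W := by positivity
    nlinarith
  have h9 : 3 * δ * W ≤ ε * W := mul_le_mul_of_nonneg_right hδε hW0.le
  linarith

/-! ### The parts -/

theorem s_fibJ : S_fibJ :=
  fibJ (win5J (Pool.Agent.H542.NS.wing Pool.Agent.H542.NS.s_winI) Pool.Agent.H985.FC.win4s)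
    (Pool.Agent.H627.Par.typV Pool.Agent.H985.KP.typ2)

theorem s_lowJ : S_lowJ := LOWJ.lowJ Pool.Agent.H985.Par.s_sw

theorem s_parJ : S_parJ := PARJ.parJ s_fibJ Pool.Agent.H985.Par.s_sw s_lowJ

end Pool.Agent.H542.NJ
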